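import Pool.Agent.Helper474.AnaR

set_option autoImplicit false

namespace Pool.Agent.Helper815.Stek

open Filter Topology MeasureTheory MeasureTheory.Measure Polynomial
open Pool.Agent.Helper474

/-- the energy density of two harmonic polynomials `Re F`, `Re G`. -/
noncomputable def dens (F G : ℂ[X]) (y : V) : ℝ :=
  (F.derivative.eval (toC y) * (starRingEnd ℂ) (G.derivative.eval (toC y))).re

theorem dens_cont (F G : ℂ[X]) : Continuous (dens F G) := by
  unfold dens
  exact Complex.continuous_re.comp ((F.derivative.continuous.comp toC.continuous).mul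
    (Complex.continuous_conj.comp (G.derivative.continuous.comp toC.continuous)))

theorem dens_add_left (F F' G : ℂ[X]) (y : V) :
    dens (F + F') G y = dens F G y + dens F' G y := by
  simp [dens, add_mul]

theorem dens_smul_left (r : ℝ) (F G : ℂ[X]) (y : V) :
    dens (r • F) G y = r * dens F G y := by
  simp only [dens, derivative_smul, eval_smul, Complex.real_smul, mul_assoc,
    Complex.re_ofReal_mul]

theorem dens_add_right (F G G' : ℂ[X]) (y : V) :
    dens F (G + G') y = dens F G y + dens F G' y := by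
  simp [dens, mul_add]

theorem dens_smul_right (r : ℝ) (F G : ℂ[X]) (y : V) :
    dens F (r • G) y = r * dens F G y := by
  simp only [dens, derivative_smul, eval_smul, Complex.real_smul, map_mul, Complex.conj_ofReal,
    mul_left_comm _ ((r : ℂ)) _, Complex.re_ofReal_mul]

/-- the energy form. -/
noncomputable def BB (Ω : Set V) (hb : Bornology.IsBounded Ω) : ℂ[X] →ₗ[ℝ] ℂ[X] →ₗ[ℝ] ℝ :=
  LinearMap.mk₂ ℝ (fun F G => ∫ y in Ω, dens F G y)
    (by
      intro F F' G
      rw [← integral_add (integrable_omega hb (dens_cont _ _))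
        (integrable_omega hb (dens_cont _ _))]
      simp only [dens_add_left])
    (by
      intro r F G
      rw [smul_eq_mul, ← integral_const_mul]
      simp only [dens_smul_left])
    (by
      intro F G G'
      rw [← integral_add (integrable_omega hb (dens_cont _ _))
        (integrable_omega hb (dens_cont _ _))]
      simp only [dens_add_right])
    (by
      intro r F G
      rw [smul_eq_mul, ← integral_const_mul]
      simp only [dens_smul_right])

theorem BB_apply (Ω : Set V) (hb : Bornology.IsBounded Ω) (F G : ℂ[X]) :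
    BB Ω hb F G = ∫ y in Ω, dens F G y := rfl

theorem ortho {Ω : Set V} (hΩ : IsOpen Ω) (hb : Bornology.IsBounded Ω) {F G : ℂ[X]} {σ τ : ℝ}
    (hF : Weak Ω F σ) (hG : Weak Ω G τ) (hst : σ ≠ τ) : BB Ω hb F G = 0 := by
  have h1 := weak_ext hΩ hb hF (uF_contDiff G)
  have h2 := weak_ext hΩ hb hG (uF_contDiff F)
  have e1 : ∫ y in Ω, @inner ℝ _ _ (gradient (uF F) y) (gradient (uF G) y) = BB Ω hb F G := by
    rw [BB_apply]
    simp only [gradient_uF_inner, dens]
  have e2 : ∫ y in Ω, @inner ℝ _ _ (gradient (uF G) y) (gradient (uF F) y) = BB Ω hb F G := by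
    rw [← e1]
    congr 1
    funext y
    exact real_inner_comm _ _
  have e3 : ∫ y in frontier Ω, uF G y * uF F y ∂(μH[1] : Measure V)
      = ∫ y in frontier Ω, uF F y * uF G y ∂(μH[1] : Measure V) := by
    congr 1
    funext y
    exact mul_comm _ _
  rw [e1] at h1
  rw [e2, e3] at h2
  have h3 : (σ - τ) * ∫ y in frontier Ω, uF F y * uF G y ∂(μH[1] : Measure V) = 0 := by
    rw [sub_mul, ← h1, ← h2, sub_self]
  rcases mul_eq_zero.1 h3 with h | h
  · exact absurd (sub_eq_zero.1 h) hst
  · rw [h1, h, mul_zero]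

theorem BB_self_ne {Ω : Set V} (hΩ : IsOpen Ω) (hb : Bornology.IsBounded Ω) (hne : Ω.Nonempty)
    {F : ℂ[X]} (hF : 0 < F.natDegree) : BB Ω hb F F ≠ 0 := by
  intro h1
  rw [BB_apply] at h1
  have h0 : ∀ y, dens F F y = ‖F.derivative.eval (toC y)‖ ^ 2 := by
    intro y
    rw [dens, Complex.mul_conj, Complex.ofReal_re, Complex.normSq_eq_norm_sq]
  simp only [h0] at h1
  have hc : Continuous (fun y : V => ‖F.derivative.eval (toC y)‖ ^ 2) :=
    ((F.derivative.continuous.comp toC.continuous).norm).pow 2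
  rw [integral_eq_zero_iff_of_nonneg (fun y => by positivity) (integrable_omega hb hc)] at h1
  have h2 := Measure.eqOn_open_of_ae_eq (μ := (volume : Measure V)) h1 hΩ hc.continuousOn
    continuousOn_const
  have h3 : F.derivative = 0 := by
    have hopen : IsOpen (toC '' Ω) := toC.toHomeomorph.isOpenMap Ω hΩ
    obtain ⟨z0, hz0⟩ := hne.image toC
    have hinf : (toC '' Ω).Infinite := infinite_of_mem_nhds z0 (hopen.mem_nhds hz0)
    apply eq_zero_of_eval_infinite hinf
    rintro _ ⟨y, hy, rfl⟩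
    have h4 := h2 hy
    simp only [Pi.zero_apply] at h4
    have h5 := pow_eq_zero_iff (two_ne_zero) |>.1 h4
    exact norm_eq_zero.1 h5
  have h4 := derivative_eq_zero.1 h3
  omega

theorem unb {Ω : Set V} (hΩ : IsOpen Ω) (hb : Bornology.IsBounded Ω) (hne : Ω.Nonempty)
    (hinf : {σ : ℝ | ∃ F : ℂ[X], 0 < F.natDegree ∧ Weak Ω F σ}.Infinite) :
    ∀ n : ℕ, ∃ p ∈ EE Ω, n < p.1.natDegree := by
  intro n
  by_contra hcon
  push Not at hcon
  set S := {σ : ℝ | ∃ F : ℂ[X], 0 < F.natDegree ∧ Weak Ω F σ} with hS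
  have hch : ∀ s : S, ∃ F : ℂ[X], 0 < F.natDegree ∧ Weak Ω F (s : ℝ) := fun s => s.2
  choose F hF using hch
  have hlin : LinearIndependent ℝ F := by
    apply LinearMap.linearIndependent_of_isOrthoᵢ (B := BB Ω hb)
    · rw [LinearMap.isOrthoᵢ_def]
      intro i j hij
      exact ortho hΩ hb (hF i).2 (hF j).2 (fun h => hij (Subtype.ext h))
    · intro i
      exact BB_self_ne hΩ hb hne (hF i).1
  have hlin2 : LinearIndependent ℝ (fun (s : S) (i : Fin (n + 1)) => (F s).coeff i) := by
    apply LinearIndependent.of_comp (poly n)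
    have : (poly n) ∘ (fun (s : S) (i : Fin (n + 1)) => (F s).coeff i) = F := by
      funext s
      exact poly_surj n (F s) (hcon (F s, (s : ℝ)) (hF s))
    rw [this]
    exact hlin
  have := hlin2.finite_of_isNoetherian
  exact hinf (Set.toFinite S)

/-- A bounded connected Lipschitz domain with infinitely many Steklov eigenvalues that have a
nonconstant polynomial eigenfunction is a disk. -/
theorem steklov_inf (Ω : Set V) (hΩ : IsOpen Ω) (hconn : IsConnected Ω)
    (hb : Bornology.IsBounded Ω) (hc : Charts Ω)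
    (hinf : {σ : ℝ | ∃ P : MvPolynomial (Fin 2) ℝ, 0 < P.totalDegree ∧ WeakP Ω P σ}.Infinite) :
    ∃ c : V, ∃ r : ℝ, Ω = Metric.ball c r := by
  have hne : Ω.Nonempty := hconn.nonempty
  have hinf' : {σ : ℝ | ∃ F : ℂ[X], 0 < F.natDegree ∧ Weak Ω F σ}.Infinite := by
    refine hinf.mono ?_
    rintro σ ⟨P, hP, hW⟩
    obtain ⟨F, hF, hW'⟩ := weakP_weak hΩ hne hW
    refine ⟨F, ?_, hW'⟩
    rcases Nat.eq_zero_or_pos F.natDegree with h | h
    · exfalso
      have h1 : P = MvPolynomial.C (F.coeff 0).re := by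
        apply MvPolynomial.funext
        intro x
        have h2 := hF (WithLp.toLp 2 x)
        rw [eq_C_of_natDegree_eq_zero h, uF_C] at h2
        rw [MvPolynomial.eval_C]
        exact h2
      rw [h1, MvPolynomial.totalDegree_C] at hP
      exact lt_irrefl _ hP
    · exact h
  have hunb := unb hΩ hb hne hinf'
  have hE : Fam (EE Ω) := by
    refine ⟨fun p hp => hp.1, fun p hp => sigma_ne hΩ hb hne hp.2 hp.1, hunb⟩
  have hσ2 : ∃ p ∈ EE Ω, ∃ q ∈ EE Ω, p.2 ≠ q.2 := by
    obtain ⟨σ, ⟨F, hF⟩⟩ := hinf'.nonempty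
    obtain ⟨τ, ⟨G, hG⟩, hτ⟩ := (hinf'.sdiff (Set.finite_singleton σ)).nonempty
    exact ⟨(F, σ), hF, (G, τ), hG, fun h => hτ h.symm⟩
  have hNI := noIso_frontier hΩ hc
  have hSne : (toC '' frontier Ω).Nonempty := (frontier_nonempty hb hne).image _
  have hpt : ∀ z ∈ toC '' frontier Ω, PtProp (toC '' frontier Ω) (EE Ω) z := by
    rintro _ ⟨x, hx, rfl⟩
    obtain ⟨R, r, f, K, hr, hf, hch, hxg⟩ := hc.exists hΩ hx
    have h1 := hch
    rw [hxg] at h1
    have h2 := pt_prop_chart hΩ hr hf (s₀ := R x 0) h1 (E := EE Ω) (fun e he => he.2)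
    rw [← hxg] at h2
    exact h2
  rcases alg_final hE hσ2 hNI hSne hpt with ⟨z0, R, hR, hcirc⟩ | ⟨P, hP, hV, v, hv, hlin⟩
  · refine ⟨toC.symm z0, R, circle_ball hΩ hb hne hR ?_⟩
    intro x hx
    have h1 := hcirc _ ⟨x, hx, rfl⟩
    rw [← toC.dist_map, LinearIsometryEquiv.apply_symm_apply, dist_eq_norm]
    exact h1
  · exact (affine_false hΩ hb hne hP hV hv hlin).elim

end Pool.Agent.Helper815.Stek
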